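import Pool.Agent.Lib.MP_56f651_co.IX.Final
import Pool.Agent.Lib.MP_56f651_co.IX.Real
import Pool.Agent.Lib.MP_56f651_co.IX.Core
import Pool.Agent.Lib.MP_56f651_co.IX.T
import Pool.Agent.Lib.MP_56f651_co.IX.Kill
import Pool.Agent.Lib.MP_56f651_co.IX.Small
import Pool.Agent.Lib.MP_56f651_co.IX.HallA
import Pool.Agent.Lib.MP_56f651_co.IX.HallB
import Pool.Agent.Lib.MP_56f651_co.IX.Prime

namespace Pool.Agent.Lib.MP_56f651_co.Variants.IndexTwicePrime

open Pool.Agent.Lib.MP_56f651_co.IX in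
/-- Cyclic Hadamard difference sets with a group of multipliers whose index in the unit group is
at most 7 or twice a prime. -/
theorem result :
    ∀ (v : ℕ) (D : Finset (ZMod v)),
      v % 4 = 3 →
      D.card = (v - 1) / 2 →
      (∀ d : ZMod v, d ≠ 0 →
        ((D ×ˢ D).filter (fun q => q.1 - q.2 = d)).card = (v - 3) / 4) →
      ∀ M : Subgroup (ZMod v)ˣ, (M.index ≤ 7 ∨ ∃ l : ℕ, l.Prime ∧ M.index = 2 * l) →
      (∀ t ∈ M, ∃ b : ZMod v, D.image (fun x => (t : ZMod v) * x) = D.image (fun x => x + b)) →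
      (∃ a b : ZMod v, IsUnit a ∧
        ((v.Prime ∧ ∀ x : ZMod v, x ∈ D ↔ (a * x + b ≠ 0 ∧ IsSquare (a * x + b))) ∨
         (v.Prime ∧ (∃ c : ℕ, v = 4 * c ^ 2 + 27) ∧
           ∃ g : ZMod v, orderOf g = v - 1 ∧ (∃ m : ℕ, g ^ (6 * m + 1) = 3) ∧
             ∀ x : ZMod v, x ∈ D ↔
               ∃ k : ℕ, (k % 6 = 0 ∨ k % 6 = 1 ∨ k % 6 = 3) ∧ g ^ k = a * x + b) ∨
         (∃ p : ℕ, p.Prime ∧ (p + 2).Prime ∧ v = p * (p + 2) ∧
           ∀ x : ZMod v, x ∈ D ↔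
             (jacobiSym ((a * x + b).val : ℤ) p * jacobiSym ((a * x + b).val : ℤ) (p + 2) = 1 ∨
              (a * x + b).val % (p + 2) = 0)))) ∨
      v = 63 ∨ (v.Prime ∧ 10 ≤ M.index) :=
  final_of stReal (stT stCore) stKill stSmall (stPrime stCore stSmall stHallA stHallB)

end Pool.Agent.Lib.MP_56f651_co.Variants.IndexTwicePrime
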